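import Pool.Agent.KS6_71.TM.Neg

/-!
# MP_dfec24_co: iterating `S` on generalized Thue-Morse words

All the words `S^k(t_{b,2})`, `k ≥ 1`, are rich if and only if `b` is odd or a power of two.
-/

namespace Pool.Agent.Results.MP_dfec24_co.Bases

open Pool.Agent.KS6_71.TM

/-- Let `b ≥ 2`. The words `S^k(t_{b,2})`, `k ≥ 1`, are all rich if and only if `b` is odd or a
power of two. If `b` is even and `b < 2^M < 2 b`, then `S^(2^M + 1)(t_{b,2})` is not rich (such an
`M` exists for every even `b` that is not a power of two). -/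
theorem result :
    (∀ b : ℕ, 2 ≤ b → ((∀ k : ℕ, 1 ≤ k → Rich (S^[k] (t b))) ↔ (Odd b ∨ ∃ m : ℕ, b = 2 ^ m))) ∧
    (∀ b M : ℕ, Even b → b < 2 ^ M → 2 ^ M < 2 * b → ¬ Rich (S^[2 ^ M + 1] (t b))) := by
  have key : ∀ b M : ℕ, Even b → b < 2 ^ M → 2 ^ M < 2 * b → ¬ Rich (S^[2 ^ M + 1] (t b)) :=
    fun b M hb h1 h2 => not_rich b M (Nat.even_iff.1 hb) h1 h2
  refine ⟨fun b hb => ⟨fun h => ?_, fun h k hk => ?_⟩, key⟩
  · by_contra hcon
    push Not at hcon
    obtain ⟨hodd, hpow⟩ := hcon
    have heven : Even b := by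
      rcases Nat.even_or_odd b with h' | h'
      · exact h'
      · exact absurd h' (by simpa using hodd)
    have h1 : b < 2 ^ (Nat.log 2 b + 1) := Nat.lt_pow_succ_log_self (by omega) b
    have h2 : 2 ^ Nat.log 2 b ≤ b := Nat.pow_log_le_self 2 (by omega)
    have h3 : 2 ^ Nat.log 2 b ≠ b := fun h' => hpow _ h'.symm
    refine key b (Nat.log 2 b + 1) heven h1 ?_ (h _ (by omega))
    rw [pow_succ]
    omega
  · rcases h with h | ⟨m, rfl⟩
    · exact rich_odd b (Nat.odd_iff.1 h) k hk
    · have hm : 1 ≤ m := by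
        by_contra hm
        have : m = 0 := by omega
        subst this
        norm_num at hb
      exact rich_pow m hm k hk

end Pool.Agent.Results.MP_dfec24_co.Bases
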