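import Mathlib

/-!
# MP_dfec24_co: for which bases are all the words `S^k(t_{b,2})` rich?

* For odd `b` all the words `S^k(t_{b,2})`, `k ≥ 1`, are rich (they are constant).
* For every even `b` which is not a power of two infinitely many of these words are not rich; in
  particular this is so for `k = 2 ^ m + 1` with `b < 2 ^ m < 2 b`.
-/

set_option autoImplicit false

namespace Pool.Agent.Results.MP_dfec24_co.EvenBases

/-- The operation `S`: sum of consecutive letters modulo `2`. -/
def S (u : ℕ → ℕ) : ℕ → ℕ := fun n => (u n + u (n + 1)) % 2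

/-- The generalized Thue-Morse word `t_{b,2}`: sum of the digits in base `b` modulo `2`. -/
def t (b : ℕ) : ℕ → ℕ := fun n => (Nat.digits b n).sum % 2

/-- The factor of length `n` of `u` that starts at position `i`. -/
def factor (u : ℕ → ℕ) (i n : ℕ) : List ℕ := (List.range n).map fun j => u (i + j)

/-- The palindromic factors of a finite word (the empty word is one of them). -/
def Pals (w : List ℕ) : Set (List ℕ) := {p : List ℕ | p <:+: w ∧ p.reverse = p}

/-- A finite word is rich if it has `|w| + 1` distinct palindromic factors (with the empty word). -/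
def IsRich (w : List ℕ) : Prop := (Pals w).ncard = w.length + 1

/-- An infinite word is rich if every one of its finite factors is rich. -/
def IsRichWord (u : ℕ → ℕ) : Prop := ∀ i n : ℕ, IsRich (factor u i n)

/-! ### palindromic factors of finite words -/

theorem infix_tail {a : ℕ} {w p q : List ℕ} (hq : q <+: a :: w) (hqp : q.reverse = q)
    (hp : p <+: q) (hpp : p.reverse = p) (hne : p ≠ q) : p <:+: w := by
  have hs : p <:+ q := by
    have := List.reverse_suffix.2 hp
    rwa [hqp, hpp] at this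
  cases q with
  | nil => exact absurd (List.prefix_nil.1 hp) hne
  | cons c q =>
    rw [List.cons_prefix_cons] at hq
    rcases List.suffix_cons_iff.1 hs with h | h
    · exact absurd h hne
    · exact h.isInfix.trans hq.2.isInfix

theorem exists_new (a : ℕ) (w : List ℕ) : ∃ q : List ℕ, ∀ p : List ℕ, p <+: a :: w →
    p.reverse = p → p <:+: w ∨ p = q := by
  by_cases h : ∀ p : List ℕ, p <+: a :: w → p.reverse = p → p <:+: w
  · exact ⟨[], fun p h1 h2 => Or.inl (h p h1 h2)⟩
  · push Not at h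
    obtain ⟨q, h1, h2, h3⟩ := h
    refine ⟨q, fun p h4 h5 => ?_⟩
    by_cases hpq : p = q
    · exact Or.inr hpq
    · rcases List.prefix_or_prefix_of_prefix h4 h1 with h6 | h6
      · exact Or.inl (infix_tail h1 h2 h6 h5 hpq)
      · exact absurd (infix_tail h4 h5 h6 h2 (Ne.symm hpq)) h3

theorem pals_le (w : List ℕ) : (Pals w).Finite ∧ (Pals w).ncard ≤ w.length + 1 := by
  induction w with
  | nil =>
    have : Pals [] = {[]} := by
      ext p
      simp only [Pals, Set.mem_ofPred_eq, List.infix_nil, Set.mem_singleton_iff]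
      constructor
      · exact fun h => h.1
      · rintro rfl; simp
    rw [this]; simp
  | cons a w ih =>
    obtain ⟨q, hq⟩ := exists_new a w
    have hsub : Pals (a :: w) ⊆ insert q (Pals w) := by
      rintro p ⟨h1, h2⟩
      rcases List.infix_cons_iff.1 h1 with h | h
      · rcases hq p h h2 with h3 | h3
        · exact Or.inr ⟨h3, h2⟩
        · exact Or.inl h3
      · exact Or.inr ⟨h, h2⟩
    refine ⟨(ih.1.insert q).subset hsub, ?_⟩
    calc (Pals (a :: w)).ncard ≤ (insert q (Pals w)).ncard :=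
          Set.ncard_le_ncard hsub (ih.1.insert q)
      _ ≤ (Pals w).ncard + 1 := Set.ncard_insert_le _ _
      _ ≤ (a :: w).length + 1 := by rw [List.length_cons]; omega

/-- A word whose palindromic prefixes all occur a second time is not rich. -/
theorem not_rich {a : ℕ} {w : List ℕ}
    (h : ∀ p : List ℕ, p <+: a :: w → p.reverse = p → p <:+: w) : ¬ IsRich (a :: w) := by
  intro hr
  have hsub : Pals (a :: w) ⊆ Pals w := by
    rintro p ⟨h1, h2⟩
    rcases List.infix_cons_iff.1 h1 with h3 | h3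
    · exact ⟨h p h3 h2, h2⟩
    · exact ⟨h3, h2⟩
  have h1 := Set.ncard_le_ncard hsub (pals_le w).1
  have h2 := (pals_le w).2
  unfold IsRich at hr
  rw [List.length_cons] at hr
  omega

/-! ### factors -/

theorem length_factor (u : ℕ → ℕ) (i n : ℕ) : (factor u i n).length = n := by
  simp [factor]

theorem getElem_factor (u : ℕ → ℕ) (i n j : ℕ) (h : j < (factor u i n).length) :
    (factor u i n)[j] = u (i + j) := by
  simp [factor]

theorem factor_append (u : ℕ → ℕ) (i m n : ℕ) :
    factor u i (m + n) = factor u i m ++ factor u (i + m) n := by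
  unfold factor
  rw [List.range_add, List.map_append, List.map_map]
  congr 1
  apply List.map_congr_left
  intro j _
  simp only [Function.comp_apply]
  congr 1; omega

theorem factor_succ (u : ℕ → ℕ) (i n : ℕ) : factor u i (n + 1) = u i :: factor u (i + 1) n := by
  rw [Nat.add_comm, factor_append]
  simp [factor]

theorem factor_congr {u v : ℕ → ℕ} {i i' n : ℕ} (h : ∀ j < n, u (i + j) = v (i' + j)) :
    factor u i n = factor v i' n := by
  unfold factor
  apply List.map_congr_left
  intro j hj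
  exact h j (List.mem_range.1 hj)

theorem factor_infix (u : ℕ → ℕ) {i j l n : ℕ} (h : j + l ≤ n) :
    factor u (i + j) l <:+: factor u i n := by
  obtain ⟨d, rfl⟩ := Nat.exists_eq_add_of_le h
  rw [factor_append, factor_append]
  exact ⟨_, _, rfl⟩

theorem prefix_factor {u : ℕ → ℕ} {i n : ℕ} {p : List ℕ} (h : p <+: factor u i n) :
    p = factor u i p.length ∧ p.length ≤ n := by
  have hl := h.length_le
  rw [length_factor] at hl
  refine ⟨?_, hl⟩
  obtain ⟨d, hd⟩ := Nat.exists_eq_add_of_le hl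
  have h1 : factor u i p.length <+: factor u i n := by
    rw [hd, factor_append]; exact List.prefix_append _ _
  exact List.IsPrefix.eq_of_length (List.prefix_of_prefix_length_le h h1 (by rw [length_factor]))
    (by rw [length_factor])

theorem pal_factor {u : ℕ → ℕ} {i n : ℕ} (h : (factor u i n).reverse = factor u i n) (j : ℕ)
    (hj : j < n) : u (i + j) = u (i + (n - 1 - j)) := by
  have h1 : (factor u i n).reverse[j]'(by simp [length_factor, hj]) =
      (factor u i n)[j]'(by simp [length_factor, hj]) := by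
    congr 1
  rw [List.getElem_reverse, getElem_factor, getElem_factor, length_factor] at h1
  exact h1.symm

/-! ### the forbidden pattern -/

/-- A word with ones exactly at `0`, `b - r`, `b`, `2 b`, `3 b - r` in a window of length
`3 b - r + 1` is not rich. -/
theorem window {u : ℕ → ℕ} {i b r : ℕ} (hr0 : 0 < r) (hrb : r < b) (hr2 : 2 * r ≠ b)
    (h1 : ∀ j ≤ 3 * b - r, (u (i + j) = 1 ↔ j = 0 ∨ j = b - r ∨ j = b ∨ j = 2 * b ∨
      j = 3 * b - r))
    (h0 : ∀ j ≤ 3 * b - r, u (i + j) = 0 ∨ u (i + j) = 1) : ¬ IsRichWord u := by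
  intro hrich
  have hw := hrich i (3 * b - r + 1)
  rw [factor_succ] at hw
  refine not_rich ?_ hw
  intro p hp hpp
  rw [← factor_succ] at hp
  obtain ⟨hp1, hp2⟩ := prefix_factor hp
  set l := p.length with hl
  rcases Nat.lt_or_ge (b - r + 1) l with hlt | hle
  · exfalso
    have hpal : ∀ j < l, u (i + j) = u (i + (l - 1 - j)) := by
      rw [hp1] at hpp
      exact fun j hj => pal_factor hpp j hj
    have a1 := hpal 0 (by omega)
    have a2 := hpal (b - r) (by omega)
    have b1 : u (i + 0) = 1 := (h1 0 (by omega)).2 (by omega)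
    have b2 : u (i + (b - r)) = 1 := (h1 _ (by omega)).2 (by omega)
    rw [b1] at a1
    rw [b2] at a2
    have c1 := (h1 _ (by omega)).1 a1.symm
    have c2 := (h1 _ (by omega)).1 a2.symm
    have hl2 : l = 3 * b - r + 1 := by omega
    have a3 := hpal b (by omega)
    have b3 : u (i + b) = 1 := (h1 _ (by omega)).2 (by omega)
    rw [b3] at a3
    have c3 := (h1 _ (by omega)).1 a3.symm
    omega
  · have hq : p = factor u (i + 1 + (2 * b - 1)) l := by
      rw [hp1, hl, hp1, length_factor]
      apply factor_congr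
      intro j hj
      have hj' : j < l := hj
      have e : i + 1 + (2 * b - 1) + j = i + (2 * b + j) := by omega
      rw [e]
      rcases h0 j (by omega) with h | h
      · rcases h0 (2 * b + j) (by omega) with h' | h'
        · rw [h, h']
        · have := (h1 _ (by omega)).1 h'
          have h2 : u (i + j) = 1 := (h1 _ (by omega)).2 (by omega)
          omega
      · have := (h1 _ (by omega)).1 h
        rw [h]
        exact ((h1 _ (by omega)).2 (by omega)).symm
    rw [hq]
    exact factor_infix u (by omega)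

/-! ### the words `S(t_{b,2})` and `S^(2^m+1)(t_{b,2})` -/

theorem t_rec {b : ℕ} (hb : 2 ≤ b) (n : ℕ) : t b n = (n % b + t b (n / b)) % 2 := by
  unfold t
  rcases Nat.eq_zero_or_pos n with rfl | hn
  · simp
  · conv_lhs => rw [Nat.digits_def' (by omega) hn, List.sum_cons]
    omega

theorem S_t_not_dvd {b : ℕ} (hb : 2 ≤ b) {n : ℕ} (h : ¬ b ∣ n + 1) : S (t b) n = 1 := by
  unfold S
  have h0 : (n + 1) / b = n / b := by rw [Nat.succ_div, if_neg h, Nat.add_zero]
  have h1 : (n + 1) % b = n % b + 1 := by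
    have h2 := Nat.div_add_mod n b
    have h3 := Nat.div_add_mod (n + 1) b
    rw [h0] at h3
    omega
  rw [t_rec hb n, t_rec hb (n + 1), h0, h1]
  omega

theorem S_t_mul {b : ℕ} (hb : 2 ≤ b) (he : Even b) (M : ℕ) :
    S (t b) (b * (M + 1) - 1) = (1 + S (t b) M) % 2 := by
  have hpos : 1 ≤ b * (M + 1) := Nat.mul_pos (by omega) (by omega)
  have e1 : b * (M + 1) - 1 + 1 = b * (M + 1) := by omega
  have e2 : b * (M + 1) - 1 = (b - 1) + b * M := by
    rw [Nat.mul_add, Nat.mul_one]; omega
  unfold S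
  rw [t_rec hb (b * (M + 1) - 1), e1, t_rec hb (b * (M + 1)), e2, Nat.add_mul_mod_self_left,
    Nat.add_mul_div_left _ _ (by omega : 0 < b), Nat.mod_eq_of_lt (by omega : b - 1 < b),
    Nat.div_eq_of_lt (by omega : b - 1 < b), Nat.mul_mod_right, Nat.mul_div_cancel_left _ (by omega : 0 < b)]
  obtain ⟨c, hc⟩ := he
  simp only [Nat.zero_add]
  omega

/-- `S(t_{b,2})` at `b M - 1`, `b ∤ M`. -/
theorem S_t_one {b : ℕ} (hb : 2 ≤ b) (he : Even b) {M : ℕ} (hM : ¬ b ∣ M) :
    S (t b) (b * M - 1) = 0 := by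
  obtain ⟨M, rfl⟩ : ∃ M', M = M' + 1 := Nat.exists_eq_succ_of_ne_zero (by rintro rfl; simp at hM)
  rw [S_t_mul hb he, S_t_not_dvd hb hM]

/-- `S(t_{b,2})` at `b² q - 1`, `b ∤ q`. -/
theorem S_t_two {b : ℕ} (hb : 2 ≤ b) (he : Even b) {q : ℕ} (hq : ¬ b ∣ q) :
    S (t b) (b * (b * q) - 1) = 1 := by
  have hq0 : 1 ≤ q := Nat.one_le_iff_ne_zero.2 (by rintro rfl; simp at hq)
  obtain ⟨M, hM⟩ : ∃ M', b * q = M' + 1 :=
    Nat.exists_eq_succ_of_ne_zero (Nat.mul_pos (by omega) hq0).ne'
  have : M = b * q - 1 := by omega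
  rw [hM, S_t_mul hb he, this, S_t_one hb he hq]

theorem iter_pow (u : ℕ → ℕ) (m : ℕ) : S^[2 ^ m] u = fun n => (u n + u (n + 2 ^ m)) % 2 := by
  induction m generalizing u with
  | zero => rfl
  | succ m ih =>
    have e : 2 ^ (m + 1) = 2 ^ m + 2 ^ m := by ring
    rw [e, Function.iterate_add_apply, ih u, ih]
    funext n
    have e2 : n + (2 ^ m + 2 ^ m) = n + 2 ^ m + 2 ^ m := by ring
    rw [e2]
    omega

theorem iter_word (b m : ℕ) : S^[2 ^ m + 1] (t b) =
    fun n => (S (t b) n + S (t b) (n + 2 ^ m)) % 2 := by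
  rw [Function.iterate_succ_apply, iter_pow]

/-- **Non-richness.** -/
theorem not_rich_word {b m : ℕ} (hb : 2 ≤ b) (he : Even b) (hpow : ∀ s, ¬ b ∣ 2 ^ s)
    (h1 : b ≤ 2 ^ m % b ^ 2) (h2 : 2 ^ m % b ^ 2 < b ^ 2 - 2 * b) :
    ¬ IsRichWord (S^[2 ^ m + 1] (t b)) := by
  have hb4 : 3 ≤ b := by
    by_contra h
    have : b = 2 := by omega
    subst this
    exact hpow 1 (by norm_num)
  set D := 2 ^ m with hD
  set e := D / b with hee
  set r := D % b with hr
  have hDe : D = b * e + r := (Nat.div_add_mod D b).symm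
  have hr0 : 0 < r := by
    rcases Nat.eq_zero_or_pos r with h | h
    · exact absurd (Nat.dvd_of_mod_eq_zero h) (hpow m)
    · exact h
  have hrb : r < b := Nat.mod_lt _ (by omega)
  have hr2 : 2 * r ≠ b := by
    intro h
    apply hpow (m + 1)
    refine ⟨2 * e + 1, ?_⟩
    rw [pow_succ, ← hD, hDe]
    calc (b * e + r) * 2 = b * (2 * e) + 2 * r := by ring
      _ = b * (2 * e + 1) := by rw [h]; ring
  -- the digit of `D` at `b`
  have hD2 : D % b ^ 2 = b * (e % b) + r := by
    rw [pow_two, Nat.mod_mul, ← hee, ← hr]; ring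
  rw [hD2] at h1 h2
  have he1 : 1 ≤ e % b := by
    rcases Nat.eq_zero_or_pos (e % b) with h | h
    · rw [h] at h1; omega
    · exact h
  have he2 : e % b ≤ b - 3 := by
    by_contra h
    push Not at h
    have h3 : b - 2 ≤ e % b := by omega
    have h4 : b * (b - 2) ≤ b * (e % b) := Nat.mul_le_mul_left _ h3
    rw [Nat.mul_sub, ← pow_two, Nat.mul_comm b 2] at h4
    omega
  -- choice of `q`
  obtain ⟨q, hq1, hq2⟩ : ∃ q, e < q ∧ ¬ b ∣ q := by
    by_cases h : b ∣ e + 1
    · refine ⟨e + 2, by omega, fun h' => ?_⟩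
      have := (Nat.dvd_add_right h).1 (show b ∣ e + 1 + 1 from h')
      have := Nat.le_of_dvd (by omega) this
      omega
    · exact ⟨e + 1, by omega, h⟩
  have hqe : b * (e + 1) ≤ b * q := Nat.mul_le_mul_left _ hq1
  have hbe : 3 * e ≤ b * e := Nat.mul_le_mul_right _ hb4
  rw [Nat.mul_add, Nat.mul_one] at hqe
  have hee1 : 1 ≤ e := le_trans he1 (Nat.mod_le _ _)
  obtain ⟨Q, hQ⟩ := Nat.exists_eq_add_of_le (show e + 3 ≤ b * q by omega)
  -- `b * q = e + 3 + Q`; the teeth of the first comb are at `b (Q + 1)`, `b (Q + 2)`, `b (Q + 3)`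
  have hdm := Nat.div_add_mod e b
  have hnd : ∀ x, 1 ≤ x → x ≤ 3 → ¬ b ∣ Q + x := by
    rintro x hx1 hx3 ⟨y, hy⟩
    have h3 : b * q = b * (e / b) + b * y + (e % b + 3 - x) := by omega
    have h4 : b ∣ e % b + 3 - x := by
      rw [Nat.dvd_iff_mod_eq_zero]
      have h5 : (b * q) % b = 0 := Nat.mul_mod_right _ _
      rw [h3, ← Nat.mul_add, Nat.mul_add_mod] at h5
      exact h5
    have := Nat.le_of_dvd (by omega) h4
    omega
  have hbq : b * (b * q) = b * (Q + 1) + b * e + 2 * b := by rw [hQ]; ring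
  have hbQ : 1 ≤ b * (Q + 1) := Nat.mul_pos (by omega) (by omega)
  have hA : ∀ j, j ≤ 3 * b - r → S (t b) (b * (Q + 1) - 1 + j) =
      if j = 0 ∨ j = b ∨ j = 2 * b then 0 else 1 := by
    intro j hj
    split_ifs with h
    · rcases h with h | h | h
      · rw [h]; exact S_t_one hb he (hnd 1 (by omega) (by omega))
      · have h3 : b * (Q + 1) - 1 + j = b * (Q + 2) - 1 := by
          have h4 : b * (Q + 2) = b * (Q + 1) + b := by ring
          omega
        rw [h3]
        exact S_t_one hb he (hnd 2 (by omega) (by omega))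
      · have h3 : b * (Q + 1) - 1 + j = b * (Q + 3) - 1 := by
          have h4 : b * (Q + 3) = b * (Q + 1) + 2 * b := by ring
          omega
        rw [h3]
        exact S_t_one hb he (hnd 3 (by omega) (by omega))
    · apply S_t_not_dvd hb
      have e1 : b * (Q + 1) - 1 + j + 1 = b * (Q + 1) + j := by omega
      rw [e1, Nat.dvd_add_right (Nat.dvd_mul_right _ _)]
      rintro ⟨c, hc⟩
      have hc3 : c < 3 := by
        by_contra h3
        have : b * 3 ≤ b * c := Nat.mul_le_mul_left _ (by omega)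
        omega
      interval_cases c <;> omega
  have hB : ∀ j, j ≤ 3 * b - r → S (t b) (b * (Q + 1) - 1 + j + D) =
      if j = b - r ∨ j = 3 * b - r then 0 else 1 := by
    intro j hj
    have e1 : b * (Q + 1) - 1 + j + D + 1 + 2 * b = b * (b * q) + (j + r) := by omega
    split_ifs with h
    · rcases h with h | h
      · have h6 : b * (Q + 1) - 1 + j + D = b * (b * q - 1) - 1 := by
          have h7 : b * (b * q - 1) = b * (b * q) - b := by rw [Nat.mul_sub, Nat.mul_one]
          omega
        rw [h6]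
        apply S_t_one hb he
        intro h3
        have h4 : b ∣ 1 := by
          have := Nat.dvd_sub (Nat.dvd_mul_right b q) h3
          rwa [Nat.sub_sub_self (by omega)] at this
        have := Nat.le_of_dvd (by omega) h4
        omega
      · have h6 : b * (Q + 1) - 1 + j + D = b * (b * q + 1) - 1 := by
          have h7 : b * (b * q + 1) = b * (b * q) + b := by ring
          omega
        rw [h6]
        apply S_t_one hb he
        intro h3
        have h4 : b ∣ 1 := (Nat.dvd_add_right (Nat.dvd_mul_right b q)).1 h3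
        have := Nat.le_of_dvd (by omega) h4
        omega
    · by_cases h3 : j + r = 2 * b
      · have : b * (Q + 1) - 1 + j + D = b * (b * q) - 1 := by omega
        rw [this]
        exact S_t_two hb he hq2
      · apply S_t_not_dvd hb
        intro h4
        have h5 : b ∣ b * (Q + 1) - 1 + j + D + 1 + 2 * b := Dvd.dvd.add h4 (Dvd.intro_left 2 rfl)
        rw [e1, Nat.dvd_add_right (Nat.dvd_mul_right _ _)] at h5
        obtain ⟨c, hc⟩ := h5
        have hc3 : c < 4 := by
          by_contra h6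
          have : b * 4 ≤ b * c := Nat.mul_le_mul_left _ (by omega)
          omega
        interval_cases c <;> omega
  have hword : ∀ j, j ≤ 3 * b - r → S^[2 ^ m + 1] (t b) (b * (Q + 1) - 1 + j) =
      ((if j = 0 ∨ j = b ∨ j = 2 * b then 0 else 1) +
        (if j = b - r ∨ j = 3 * b - r then 0 else 1)) % 2 := by
    intro j hj
    rw [iter_word]
    dsimp only
    rw [← hD, hA j hj, hB j hj]
  apply window (i := b * (Q + 1) - 1) hr0 hrb hr2
  · intro j hj
    rw [hword j hj]
    split_ifs with h3 h4 h4 <;> simp <;> omega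
  · intro j hj
    rw [hword j hj]
    omega

/-! ### arithmetic of the exponents -/

theorem not_dvd_two_pow {b : ℕ} (h : ∀ s, b ≠ 2 ^ s) (s : ℕ) : ¬ b ∣ 2 ^ s := by
  intro h1
  obtain ⟨k, _, hk⟩ := (Nat.dvd_prime_pow Nat.prime_two).1 h1
  exact h k hk

theorem six_le {b : ℕ} (hb : 2 ≤ b) (he : Even b) (h : ∀ s, b ≠ 2 ^ s) : 6 ≤ b := by
  obtain ⟨c, hc⟩ := he
  have h1 := h 1
  have h2 := h 2
  norm_num at h1 h2
  omega

theorem exists_small {b : ℕ} (hb : 2 ≤ b) (h : ∀ s, b ≠ 2 ^ s) : ∃ m, b < 2 ^ m ∧ 2 ^ m < 2 * b := by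
  refine ⟨Nat.log 2 b + 1, Nat.lt_pow_succ_log_self (by norm_num) b, ?_⟩
  have h1 := Nat.pow_log_le_self 2 (show b ≠ 0 by omega)
  have h2 := h (Nat.log 2 b)
  rw [pow_succ]
  omega

theorem exists_large {b : ℕ} (hb : 6 ≤ b) (h : ∀ s, b ≠ 2 ^ s) (a : ℕ) :
    ∃ m, a < 2 ^ m ∧ b ≤ 2 ^ m % b ^ 2 ∧ 2 ^ m % b ^ 2 < b ^ 2 - 2 * b := by
  obtain ⟨s, c, hc, hbc⟩ := Nat.exists_eq_two_pow_mul_odd (show b ≠ 0 by omega)
  have hc3 : 3 ≤ c := by
    obtain ⟨d, hd⟩ := hc
    rcases Nat.eq_zero_or_pos d with h0 | h0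
    · exact absurd (by rw [hbc, hd, h0]; ring) (h s)
    · omega
  have hb2 : 6 * b ≤ b ^ 2 := by rw [pow_two]; exact Nat.mul_le_mul_right _ hb
  set L := Nat.log 2 (b ^ 2) with hL
  have l1 : 2 ^ L ≤ b ^ 2 := Nat.pow_log_le_self 2 (by positivity)
  have l2 : b ^ 2 < 2 ^ (L + 1) := Nat.lt_pow_succ_log_self (by norm_num) _
  obtain ⟨i, hi⟩ : ∃ i, L = i + 1 := by
    refine Nat.exists_eq_succ_of_ne_zero ?_
    intro h0
    rw [h0] at l2
    omega
  rw [hi] at l1 l2
  have l3 : 2 * 2 ^ i ≤ b ^ 2 := by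
    have h1 : 2 ^ (i + 1) = 2 * 2 ^ i := by ring
    omega
  have l4 : b ^ 2 < 4 * 2 ^ i := by
    have h1 : 2 ^ (i + 1 + 1) = 4 * 2 ^ i := by ring
    omega
  have hsq : b ^ 2 = 2 ^ (2 * s) * c ^ 2 := by rw [hbc]; ring
  have hsi : 2 * s < i := by
    have h9 : 9 ≤ c ^ 2 := by nlinarith
    have h10 : 2 ^ (2 * s) * 9 ≤ b ^ 2 := by rw [hsq]; exact Nat.mul_le_mul_left _ h9
    have h11 : 2 ^ (2 * s) < 2 ^ i := by omega
    exact (Nat.pow_lt_pow_iff_right (by norm_num)).1 h11
  obtain ⟨j, hj⟩ := Nat.exists_eq_add_of_lt hsi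
  have hcop : Nat.Coprime 2 (c ^ 2) := by
    apply Nat.Coprime.pow_right
    exact (Nat.coprime_two_left).2 hc
  have hmod : 2 ^ (i + Nat.totient (c ^ 2) * (a + 1)) ≡ 2 ^ i [MOD b ^ 2] := by
    have h1 : (2 ^ Nat.totient (c ^ 2)) ^ (a + 1) ≡ 1 ^ (a + 1) [MOD c ^ 2] :=
      (Nat.ModEq.pow_totient hcop).pow _
    rw [one_pow, ← pow_mul] at h1
    have h2 := (h1.mul_left (2 ^ (j + 1))).mul_left' (2 ^ (2 * s))
    rw [← hsq] at h2
    have e1 : 2 ^ (2 * s) * (2 ^ (j + 1) * 2 ^ (Nat.totient (c ^ 2) * (a + 1))) =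
        2 ^ (i + Nat.totient (c ^ 2) * (a + 1)) := by
      rw [← pow_add, ← pow_add]; congr 1; omega
    have e2 : 2 ^ (2 * s) * (2 ^ (j + 1) * 1) = 2 ^ i := by
      rw [mul_one, ← pow_add]; congr 1; omega
    rwa [e1, e2] at h2
  refine ⟨i + Nat.totient (c ^ 2) * (a + 1), ?_, ?_⟩
  · have h1 : 1 ≤ Nat.totient (c ^ 2) := Nat.totient_pos.2 (by positivity)
    have h2 : a + 1 ≤ Nat.totient (c ^ 2) * (a + 1) := Nat.le_mul_of_pos_left _ h1
    calc a < a + 1 := by omega
      _ ≤ i + Nat.totient (c ^ 2) * (a + 1) := by omega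
      _ < 2 ^ (i + Nat.totient (c ^ 2) * (a + 1)) := Nat.lt_two_pow_self
  · have h1 : 2 ^ (i + Nat.totient (c ^ 2) * (a + 1)) % b ^ 2 = 2 ^ i := by
      rw [hmod, Nat.mod_eq_of_lt (by omega)]
    rw [h1]
    omega

/-! ### odd bases -/

theorem t_odd {b : ℕ} (hb : 2 ≤ b) (ho : Odd b) (n : ℕ) : t b n = n % 2 := by
  induction n using Nat.strong_induction_on with
  | _ n ih =>
    rcases Nat.eq_zero_or_pos n with rfl | hn
    · simp [t]
    · rw [t_rec hb, ih (n / b) (Nat.div_lt_self hn (by omega))]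
      obtain ⟨c, hc⟩ := ho
      have h1 := Nat.div_add_mod n b
      have h2 : b * (n / b) = 2 * (c * (n / b)) + n / b := by
        rw [hc]; ring
      omega

theorem iter_const (c k : ℕ) : ∃ c', S^[k] (fun _ => c) = fun _ => c' := by
  induction k generalizing c with
  | zero => exact ⟨c, rfl⟩
  | succ k ih =>
    rw [Function.iterate_succ_apply]
    exact ih ((c + c) % 2)

theorem rich_const (c : ℕ) : IsRichWord fun _ => c := by
  intro i n
  have h1 : factor (fun _ => c) i n = List.replicate n c := by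
    simp [factor]
  have h2 : Pals (List.replicate n c) =
      (((Finset.range (n + 1)).image fun j => List.replicate j c : Finset (List ℕ)) :
        Set (List ℕ)) := by
    ext p
    simp only [Pals, Set.mem_ofPred_eq, Finset.coe_image, Set.mem_image, Finset.coe_range,
      Set.mem_Iio]
    constructor
    · rintro ⟨h, -⟩
      refine ⟨p.length, ?_, ?_⟩
      · have := h.length_le
        rw [List.length_replicate] at this
        omega
      · symm
        rw [List.eq_replicate_iff]
        exact ⟨rfl, fun x hx => List.eq_of_mem_replicate (h.subset hx)⟩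
    · rintro ⟨j, hj, rfl⟩
      refine ⟨?_, List.reverse_replicate⟩
      obtain ⟨d, hd⟩ := Nat.exists_eq_add_of_le (show j ≤ n by omega)
      rw [hd, List.replicate_add]
      exact (List.prefix_append _ _).isInfix
  unfold IsRich
  rw [h1, h2, Set.ncard_coe_finset, Finset.card_image_of_injective, Finset.card_range,
    List.length_replicate]
  intro x y hxy
  have := congrArg List.length hxy
  simpa using this

/-- **Which bases give rich words only?** Let `b ≥ 2`.
(1) If `b` is odd, all the words `S^k(t_{b,2})`, `k ≥ 1`, are rich.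
(2) If `b` is even and not a power of two, then `S^(2^m+1)(t_{b,2})` is not rich for every `m` for
which the remainder of `2^m` modulo `b²` lies in `[b, b² - 2 b)`. There is such an `m` with
`b < 2^m < 2 b`, and there are infinitely many `k` such that `S^k(t_{b,2})` is not rich. -/
theorem result (b : ℕ) (hb : 2 ≤ b) :
    (Odd b → ∀ k : ℕ, 1 ≤ k → IsRichWord (S^[k] (t b))) ∧
    (Even b → (∀ s : ℕ, b ≠ 2 ^ s) →
      (∀ m : ℕ, b ≤ 2 ^ m % b ^ 2 → 2 ^ m % b ^ 2 < b ^ 2 - 2 * b →
        ¬ IsRichWord (S^[2 ^ m + 1] (t b))) ∧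
      (∃ m : ℕ, b < 2 ^ m ∧ 2 ^ m < 2 * b ∧ ¬ IsRichWord (S^[2 ^ m + 1] (t b))) ∧
      {k : ℕ | ¬ IsRichWord (S^[k] (t b))}.Infinite) := by
  refine ⟨?_, ?_⟩
  · intro ho k hk
    obtain ⟨k, rfl⟩ := Nat.exists_eq_add_of_le' hk
    rw [Function.iterate_succ_apply]
    have h1 : S (t b) = fun _ => 1 := by
      funext n
      unfold S
      rw [t_odd hb ho, t_odd hb ho]
      omega
    rw [h1]
    obtain ⟨c', hc'⟩ := iter_const 1 k
    rw [hc']
    exact rich_const c'
  · intro he h2
    have hp := not_dvd_two_pow h2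
    have h6 := six_le hb he h2
    refine ⟨fun m h3 h4 => not_rich_word hb he hp h3 h4, ?_, ?_⟩
    · obtain ⟨m, h3, h4⟩ := exists_small hb h2
      have hb2 : 6 * b ≤ b ^ 2 := by rw [pow_two]; exact Nat.mul_le_mul_right _ h6
      have h5 : 2 ^ m % b ^ 2 = 2 ^ m := Nat.mod_eq_of_lt (by omega)
      exact ⟨m, h3, h4, not_rich_word hb he hp (by omega) (by omega)⟩
    · refine Set.infinite_of_forall_exists_gt fun a => ?_
      obtain ⟨m, h3, h4, h5⟩ := exists_large h6 h2 a
      exact ⟨2 ^ m + 1, not_rich_word hb he hp h4 h5, by omega⟩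

end Pool.Agent.Results.MP_dfec24_co.EvenBases
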